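import Pool.Agent.D0H9.CC.Lo
import Pool.Agent.D0H61.CP.Stm

/-! `S_OSC → S_LO2`: mean values of exponential sums over arbitrary sparse sets. -/

set_option autoImplicit false

namespace Pool.Agent.D0H9.CP

open MeasureTheory Finset Pool.Agent.D0H61.CC Pool.Agent.D0H61.CP Pool.Agent.D0H9.CC

/-- the sum of `1 / √d` over a set of positive integers -/
theorem sum_set (D : Finset ℕ) : (∀ d ∈ D, 1 ≤ d) →
    ∑ d ∈ D, 1 / √(d : ℝ) ≤ 2 * √(D.card : ℝ) := by
  induction D using Finset.induction_on_max with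
  | empty => simp
  | insert a s hmax ih =>
    intro hD
    have ha : a ∉ s := fun h => lt_irrefl _ (hmax a h)
    have h1 := ih (fun d hd => hD d (mem_insert_of_mem hd))
    have h2 : s.card + 1 ≤ a := by
      have h3 : s ⊆ Ico 1 a := fun d hd =>
        mem_Ico.mpr ⟨hD d (mem_insert_of_mem hd), hmax d hd⟩
      have h4 := card_le_card h3
      rw [Nat.card_Ico] at h4
      have h5 := hD a (mem_insert_self a s)
      omega
    rw [sum_insert ha, card_insert_of_notMem ha]
    have h0 : (0 : ℝ) ≤ s.card := Nat.cast_nonneg _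
    have hs1 : 0 < √((s.card : ℝ) + 1) := Real.sqrt_pos.mpr (by linarith)
    have hs2 : √((s.card : ℝ) + 1) * √((s.card : ℝ) + 1) = s.card + 1 :=
      Real.mul_self_sqrt (by linarith)
    have hs3 : √(s.card : ℝ) * √(s.card : ℝ) = s.card := Real.mul_self_sqrt h0
    have hs4 : 0 ≤ √(s.card : ℝ) := Real.sqrt_nonneg _
    have hs5 : √(s.card : ℝ) ≤ √((s.card : ℝ) + 1) := Real.sqrt_le_sqrt (by linarith)
    have hs6 : 1 / √((s.card : ℝ) + 1) ≤ 2 * √((s.card : ℝ) + 1) - 2 * √(s.card : ℝ) := by
      rw [div_le_iff₀ hs1]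
      nlinarith
    have hs7 : 1 / √(a : ℝ) ≤ 1 / √((s.card : ℝ) + 1) := by
      apply one_div_le_one_div_of_le hs1
      apply Real.sqrt_le_sqrt
      exact_mod_cast h2
    push_cast
    linarith

/-- the sum of `1 / √|n - m|` over the `m ≠ n` in a set of integers -/
theorem sum_dist2 (G : Finset ℕ) (n : ℕ) :
    ∑ m ∈ G.erase n, 1 / √|(n : ℝ) - m| ≤ 4 * √(G.card : ℝ) := by
  have hsplit : ∑ m ∈ G.erase n, 1 / √|(n : ℝ) - m| =
      ∑ m ∈ (G.erase n).filter (· < n), 1 / √|(n : ℝ) - m| +
      ∑ m ∈ (G.erase n).filter (fun m => ¬ m < n), 1 / √|(n : ℝ) - m| :=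
    (sum_filter_add_sum_filter_not _ _ _).symm
  have hcard : ∀ D : Finset ℕ, D.card ≤ G.card → 2 * √(D.card : ℝ) ≤ 2 * √(G.card : ℝ) := by
    intro D hD
    have : √(D.card : ℝ) ≤ √(G.card : ℝ) := Real.sqrt_le_sqrt (by exact_mod_cast hD)
    linarith
  have h1 : ∑ m ∈ (G.erase n).filter (· < n), 1 / √|(n : ℝ) - m| ≤ 2 * √(G.card : ℝ) := by
    have h2 : ∑ m ∈ (G.erase n).filter (· < n), 1 / √|(n : ℝ) - m| =
        ∑ d ∈ ((G.erase n).filter (· < n)).image (fun m => n - m), 1 / √(d : ℝ) := by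
      rw [sum_image]
      · apply sum_congr rfl
        intro m hm
        rw [mem_filter] at hm
        have h2 : (m : ℝ) ≤ n := by exact_mod_cast hm.2.le
        rw [Nat.cast_sub hm.2.le, abs_of_nonneg (by linarith)]
      · intro a ha b hb hab
        have ha' := (mem_filter.mp (mem_coe.mp ha)).2
        have hb' := (mem_filter.mp (mem_coe.mp hb)).2
        have hab' : n - a = n - b := hab
        omega
    rw [h2]
    refine (sum_set _ ?_).trans (hcard _ ?_)
    · intro d hd
      rw [mem_image] at hd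
      obtain ⟨m, hm, rfl⟩ := hd
      have := (mem_filter.mp hm).2
      omega
    · exact card_image_le.trans ((card_filter_le _ _).trans (card_erase_le))
  have h3 : ∑ m ∈ (G.erase n).filter (fun m => ¬ m < n), 1 / √|(n : ℝ) - m| ≤
      2 * √(G.card : ℝ) := by
    have h2 : ∑ m ∈ (G.erase n).filter (fun m => ¬ m < n), 1 / √|(n : ℝ) - m| =
        ∑ d ∈ ((G.erase n).filter (fun m => ¬ m < n)).image (fun m => m - n), 1 / √(d : ℝ) := by
      rw [sum_image]
      · apply sum_congr rfl
        intro m hm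
        rw [mem_filter] at hm
        have h0 : n ≤ m := not_lt.mp hm.2
        have h2 : (n : ℝ) ≤ m := by exact_mod_cast h0
        rw [Nat.cast_sub h0, abs_of_nonpos (by linarith), neg_sub]
      · intro a ha b hb hab
        have ha' := (mem_filter.mp (mem_coe.mp ha)).2
        have hb' := (mem_filter.mp (mem_coe.mp hb)).2
        have hab' : a - n = b - n := hab
        omega
    rw [h2]
    refine (sum_set _ ?_).trans (hcard _ ?_)
    · intro d hd
      rw [mem_image] at hd
      obtain ⟨m, hm, rfl⟩ := hd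
      rw [mem_filter, mem_erase] at hm
      have h4 := hm.1.1
      have h5 := hm.2
      omega
    · exact card_image_le.trans ((card_filter_le _ _).trans (card_erase_le))
  rw [hsplit]
  linarith

theorem t_LO2 : S_OSC → S_LO2 := by
  intro hosc κ R hκ0 hκ1 hR
  obtain ⟨C₀, hC₀, ho1, ho2⟩ := hosc κ R hκ0 hκ1 hR
  have hR0 : 0 < R := by linarith
  have hRR : 1 / R ≤ R := by
    rw [div_le_iff₀ hR0]
    nlinarith
  refine ⟨R + 4 * (C₀ + 2), by positivity, ?_⟩
  intro G u v q hq huv
  set C₁ : ℝ := C₀ + 2 with hC₁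
  rcases G.eq_empty_or_nonempty with hG0 | hGne
  · rw [hG0]
    simp
  set N : ℕ := G.card with hNdef
  have hN : 1 ≤ N := Finset.card_pos.mpr hGne
  have hNr : (1 : ℝ) ≤ N := by exact_mod_cast hN
  have hN0 : (0 : ℝ) < N := by linarith
  -- bound for one pair
  have hpair : ∀ d : ℝ, 1 ≤ |d| →
      ‖∫ α in (1 / R)..R, ex (d * (u * α + v * α ^ κ))‖ ≤ C₁ * q * (1 / √|d|) := by
    intro d hd
    have hd0 : 0 < |d| := by linarith
    have hsd : 0 < √|d| := Real.sqrt_pos.mpr hd0
    rcases huv with h | ⟨h0, h⟩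
    · have hv0 : v ≠ 0 := by
        intro h0
        rw [h0, abs_zero] at h
        have : 0 < 1 / q := by positivity
        linarith
      have h1 := ho1 (d * u) (d * v) (mul_ne_zero (abs_pos.mp hd0) hv0)
      have h2 : (∫ α in (1 / R)..R, ex (d * (u * α + v * α ^ κ))) =
          ∫ α in (1 / R)..R, ex (d * u * α + d * v * α ^ κ) := by
        congr 1
        ext α
        congr 1
        ring
      rw [h2]
      refine h1.trans ?_
      rw [abs_mul, Real.sqrt_mul hd0.le]
      have h3 : 1 / q ≤ √|v| := by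
        have h5 : √(1 / q) ≤ √|v| := Real.sqrt_le_sqrt h
        have h6 : 1 / q ≤ √(1 / q) := by
          apply Real.le_sqrt_of_sq_le
          have h7 : 0 ≤ 1 / q := by positivity
          have h8 : 1 / q ≤ 1 := by rw [div_le_one (by linarith)]; exact hq
          nlinarith
        exact h6.trans h5
      have hvp : 0 < √|v| := lt_of_lt_of_le (by positivity) h3
      have h4 : 1 / √|v| ≤ q := by
        rw [div_le_iff₀ hvp]
        rw [div_le_iff₀ (by linarith)] at h3
        linarith
      calc C₀ / (√|d| * √|v|) = C₀ * (1 / √|d|) * (1 / √|v|) := by field_simp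
        _ ≤ C₀ * (1 / √|d|) * q := by gcongr
        _ ≤ C₁ * q * (1 / √|d|) := by
          rw [hC₁]
          have : 0 ≤ 2 * q * (1 / √|d|) := by positivity
          nlinarith
    · have hu0 : u ≠ 0 := by
        intro h0
        rw [h0, abs_zero] at h
        have : 0 < 1 / q := by positivity
        linarith
      have h1 := ho2 (d * u) (mul_ne_zero (abs_pos.mp hd0) hu0)
      have h2 : (∫ α in (1 / R)..R, ex (d * (u * α + v * α ^ κ))) =
          ∫ α in (1 / R)..R, ex (d * u * α) := by
        congr 1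
        ext α
        congr 1
        rw [h0]
        ring
      rw [h2]
      refine h1.trans ?_
      rw [abs_mul]
      have hup : 0 < |u| := abs_pos.mpr hu0
      have h4 : 1 / |u| ≤ q := by
        rw [div_le_iff₀ hup]
        rw [div_le_iff₀ (by linarith)] at h
        linarith
      have h5 : 1 / |d| ≤ 1 / √|d| := by
        apply one_div_le_one_div_of_le hsd
        rw [Real.sqrt_le_left (by linarith)]
        nlinarith
      calc 2 / (|d| * |u|) = 2 * (1 / |d|) * (1 / |u|) := by field_simp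
        _ ≤ 2 * (1 / √|d|) * q := by gcongr
        _ ≤ C₁ * q * (1 / √|d|) := by
          rw [hC₁]
          have : 0 ≤ C₀ * q * (1 / √|d|) := by positivity
          nlinarith
  -- continuity
  have hθ : ContinuousOn (fun α : ℝ => u * α + v * α ^ κ) (Set.Icc (1 / R) R) := by
    intro t ht
    have ht0 : 0 < t := lt_of_lt_of_le (by positivity) ht.1
    have h1 := (Real.continuousAt_rpow_const t κ (Or.inl ht0.ne')).continuousWithinAt
      (s := Set.Icc (1 / R) R)
    exact (continuousWithinAt_const.mul continuousWithinAt_id).add (continuousWithinAt_const.mul h1)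
  have hexc : ∀ d : ℝ, ContinuousOn (fun α : ℝ => ex (d * (u * α + v * α ^ κ))) (Set.Icc (1 / R) R) := by
    intro d
    have h1 : Continuous ex := by unfold ex; fun_prop
    exact h1.comp_continuousOn (continuousOn_const.mul hθ)
  have hU : Set.uIcc (1 / R) R = Set.Icc (1 / R) R := Set.uIcc_of_le hRR
  have hint : ∀ d : ℝ, IntervalIntegrable (fun α : ℝ => ex (d * (u * α + v * α ^ κ))) volume (1 / R) R := by
    intro d
    apply ContinuousOn.intervalIntegrable
    rw [hU]
    exact hexc d
  have hSc : ContinuousOn (fun α : ℝ => ∑ n ∈ G, ex (n * (u * α + v * α ^ κ))) (Set.Icc (1 / R) R) :=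
    continuousOn_finsetSum _ fun n _ => hexc n
  -- the mean square
  have hsq : ∫ α in (1 / R)..R, ‖∑ n ∈ G, ex (n * (u * α + v * α ^ κ))‖ ^ 2 ≤
      (R + 4 * C₁) * q * (N * √(N : ℝ)) := by
    have h1 : ((∫ α in (1 / R)..R, ‖∑ n ∈ G, ex (n * (u * α + v * α ^ κ))‖ ^ 2 : ℝ) : ℂ) =
        ∑ n ∈ G, ∑ m ∈ G, ∫ α in (1 / R)..R, ex (((n : ℝ) - m) * (u * α + v * α ^ κ)) := by
      rw [← intervalIntegral.integral_ofReal]
      simp_rw [sq_expand]
      rw [intervalIntegral.integral_finsetSum]
      · apply sum_congr rfl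
        intro n _
        rw [intervalIntegral.integral_finsetSum]
        intro m _
        exact hint _
      · intro n _
        refine ⟨?_, ?_⟩
        · exact integrable_finsetSum _ fun m _ => (hint _).1
        · exact integrable_finsetSum _ fun m _ => (hint _).2
    have h2 : ∫ α in (1 / R)..R, ‖∑ n ∈ G, ex (n * (u * α + v * α ^ κ))‖ ^ 2 ≤
        ∑ n ∈ G, ∑ m ∈ G, ‖∫ α in (1 / R)..R, ex (((n : ℝ) - m) * (u * α + v * α ^ κ))‖ := by
      have h3 := congrArg norm h1
      rw [Complex.norm_real, Real.norm_eq_abs] at h3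
      refine (le_abs_self _).trans ?_
      rw [h3]
      refine (norm_sum_le _ _).trans (sum_le_sum fun n _ => norm_sum_le _ _)
    refine h2.trans ?_
    have h4 : ∀ n ∈ G, ∑ m ∈ G, ‖∫ α in (1 / R)..R, ex (((n : ℝ) - m) * (u * α + v * α ^ κ))‖ ≤
        (R + 4 * C₁) * q * √(N : ℝ) := by
      intro n hn
      rw [← add_sum_erase _ _ hn]
      have h5 : ‖∫ α in (1 / R)..R, ex (((n : ℝ) - n) * (u * α + v * α ^ κ))‖ ≤ R := by
        refine (len_le hRR).trans ?_
        have : 0 < 1 / R := by positivity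
        linarith
      have h6 : ∑ m ∈ G.erase n, ‖∫ α in (1 / R)..R, ex (((n : ℝ) - m) * (u * α + v * α ^ κ))‖ ≤
          ∑ m ∈ G.erase n, C₁ * q * (1 / √|(n : ℝ) - m|) := by
        apply sum_le_sum
        intro m hm
        apply hpair
        have hne : n ≠ m := (ne_of_mem_erase hm).symm
        have h7 : (n : ℤ) - m ≠ 0 := by omega
        have h8 : 1 ≤ |(n : ℤ) - m| := Int.one_le_abs h7
        exact_mod_cast h8
      rw [← mul_sum] at h6
      have h7 := mul_le_mul_of_nonneg_left (sum_dist2 G n) (show 0 ≤ C₁ * q by positivity)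
      have hs1 : 1 ≤ √(N : ℝ) := by
        rw [Real.one_le_sqrt]
        exact hNr
      have h8 : R ≤ R * q * √(N : ℝ) := by
        have h9 : R * 1 ≤ R * (q * √(N : ℝ)) := by
          apply mul_le_mul_of_nonneg_left _ hR0.le
          nlinarith
        linarith
      nlinarith
    refine (sum_le_sum h4).trans ?_
    rw [sum_const, nsmul_eq_mul]
    have h5 : (G.card : ℝ) ≤ N := le_refl _
    have h6 : 0 ≤ (R + 4 * C₁) * q * √(N : ℝ) := by positivity
    calc (G.card : ℝ) * ((R + 4 * C₁) * q * √(N : ℝ)) ≤ N * ((R + 4 * C₁) * q * √(N : ℝ)) :=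
        mul_le_mul_of_nonneg_right h5 h6
      _ = _ := by ring
  -- conclusion
  rw [integral_Icc_eq_integral_Ioc, ← intervalIntegral.integral_of_le hRR]
  set t : ℝ := (N : ℝ) ^ (3 / 4 : ℝ) with ht
  have htp : 0 < t := Real.rpow_pos_of_pos hN0 _
  have htt : t * t = N * √(N : ℝ) := by
    rw [ht, ← Real.rpow_add hN0, Real.sqrt_eq_rpow]
    nth_rewrite 2 [← Real.rpow_one (N : ℝ)]
    rw [← Real.rpow_add hN0]
    norm_num
  have hi1 : IntervalIntegrable (fun α : ℝ => ‖∑ n ∈ G, ex (n * (u * α + v * α ^ κ))‖) volume (1 / R) R := by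
    apply ContinuousOn.intervalIntegrable
    rw [hU]
    exact hSc.norm
  have hi2 : IntervalIntegrable (fun α : ℝ => t / 2 + 1 / (2 * t) *
      ‖∑ n ∈ G, ex (n * (u * α + v * α ^ κ))‖ ^ 2) volume (1 / R) R := by
    apply ContinuousOn.intervalIntegrable
    rw [hU]
    exact continuousOn_const.add (continuousOn_const.mul (hSc.norm.pow 2))
  have hi3 : IntervalIntegrable (fun α : ℝ => 1 / (2 * t) *
      ‖∑ n ∈ G, ex (n * (u * α + v * α ^ κ))‖ ^ 2) volume (1 / R) R := by
    apply ContinuousOn.intervalIntegrable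
    rw [hU]
    exact (continuousOn_const.mul (hSc.norm.pow 2))
  have h1 : ∫ α in (1 / R)..R, ‖∑ n ∈ G, ex (n * (u * α + v * α ^ κ))‖ ≤
      ∫ α in (1 / R)..R, (t / 2 + 1 / (2 * t) * ‖∑ n ∈ G, ex (n * (u * α + v * α ^ κ))‖ ^ 2) := by
    apply intervalIntegral.integral_mono_on hRR hi1 hi2
    intro α _
    set s : ℝ := ‖∑ n ∈ G, ex (n * (u * α + v * α ^ κ))‖ with hs
    have h2 : t / 2 + 1 / (2 * t) * s ^ 2 - s = (t - s) ^ 2 / (2 * t) := by
      field_simp
      ring
    have h3 : 0 ≤ (t - s) ^ 2 / (2 * t) := by positivity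
    linarith
  rw [intervalIntegral.integral_add (by simp) hi3, intervalIntegral.integral_const,
    intervalIntegral.integral_const_mul, smul_eq_mul] at h1
  refine h1.trans ?_
  have h2 : (R - 1 / R) * (t / 2) ≤ R * (t / 2) := by
    apply mul_le_mul_of_nonneg_right _ (by positivity)
    have : 0 < 1 / R := by positivity
    linarith
  have h3 : 1 / (2 * t) * ∫ α in (1 / R)..R, ‖∑ n ∈ G, ex (n * (u * α + v * α ^ κ))‖ ^ 2 ≤
      1 / (2 * t) * ((R + 4 * C₁) * q * (N * √(N : ℝ))) :=
    mul_le_mul_of_nonneg_left hsq (by positivity)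
  rw [← htt] at h3
  have h4 : 1 / (2 * t) * ((R + 4 * C₁) * q * (t * t)) = (R + 4 * C₁) * q * t / 2 := by
    field_simp
  have h5 : R * (t / 2) ≤ (R + 4 * C₁) * q * t / 2 := by
    have h6 : R ≤ (R + 4 * C₁) * q := by
      have h7 : 0 < C₁ := by positivity
      nlinarith
    have := mul_le_mul_of_nonneg_right h6 (show 0 ≤ t / 2 by positivity)
    linarith
  linarith

end Pool.Agent.D0H9.CP
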